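import Pool.Agent.N436.DF.Stm3

/-!
# Project DF, third batch: closed sets of potential 3 (`S3_clB`)
-/

namespace Pool.Agent.N796.DF

open Finset Pool.Agent.N436.DF

theorem clB (hb : S3_base) (hs : S3_state) (hA : S3_clA) (hg : S3_glue) : S3_clB := by
  intro V _ H S Z h
  have mc := h.mc
  have ok := mc.ok
  have hsub := h.sub
  obtain ⟨-, b2, -, -, b5⟩ := hb V H ok
  obtain ⟨b5a, b5b⟩ := b5 S mc
  have hSne : S.Nonempty := h.ne.mono hsub
  -- no real edges between `Z` and the rest
  have hr0 : ∀ x ∈ Z, ∀ q ∈ S \ Z, H.r x q = 0 := by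
    intro x hx q hq
    rcases ok.r01 x q with h0 | h1
    · exact h0
    · exact absurd ⟨x, hx, q, hq, h1⟩ h.cl
  have hrr : ∀ C, C ⊆ S \ Z → rr H Z C = 0 := by
    intro C hC
    unfold rr
    exact Finset.sum_eq_zero fun x hx => Finset.sum_eq_zero fun z hz => hr0 x hx z (hC hz)
  have hdj : ∀ C, C ⊆ S \ Z → Disjoint Z C := by
    intro C hC
    exact Finset.disjoint_of_subset_right hC Finset.disjoint_sdiff
  -- (1)
  have hS2 : hp H S = -2 := by
    have h1 := b5a S (Finset.Subset.refl S) hSne
    have h2 := (b5b Z hsub h.ne h.nS).1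
    have h3 := h.h3
    omega
  have hA' : ∀ f p, ColBy H Z f p →
      (∀ x ∈ Z, ∀ q ∈ S \ Z, 1 ≤ H.m x q → H.c (f x) x ≤ load H Z f p x) ∧
      n1 H Z (S \ Z) f ≤ 1 := by
    intro f p hf
    obtain ⟨h1, h2⟩ := hA V H S Z f p mc hsub h.ne h.nS h.cl (by rw [h.h3]; norm_num) hf
    refine ⟨h1, ?_⟩
    have h3 := h.h3
    omega
  -- boundary vertices
  have hbdm : ∀ x, x ∈ bd H S Z ↔ x ∈ Z ∧ 1 ≤ ∑ q ∈ S \ Z, H.m x q := by
    intro x
    simp [bd]
  have hbdq : ∀ x ∈ bd H S Z, ∃ q ∈ S \ Z, 1 ≤ H.m x q := by
    intro x hx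
    by_contra hcon
    push Not at hcon
    have h1 := ((hbdm x).1 hx).2
    have h2 : ∑ q ∈ S \ Z, H.m x q = 0 := by
      apply Finset.sum_eq_zero
      intro q hq
      have h3 := hcon q hq
      have h4 := ok.m_nn x q
      omega
    omega
  have hbdi : ∀ x ∈ Z, ∀ q ∈ S \ Z, 1 ≤ H.m x q → x ∈ bd H S Z := by
    intro x hx q hq hm
    rw [hbdm]
    refine ⟨hx, le_trans hm ?_⟩
    exact Finset.single_le_sum (f := fun q => H.m x q) (fun i _ => ok.m_nn x i) hq
  have hn1le : ∀ f : V → Bool, ∀ x ∈ bd H S Z, ∀ y ∈ bd H S Z, f x = true → f y = true → y ≠ x →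
      2 ≤ n1 H Z (S \ Z) f := by
    intro f x hx y hy hfx hfy hyx
    obtain ⟨hxZ, hx1⟩ := (hbdm x).1 hx
    obtain ⟨hyZ, hy1⟩ := (hbdm y).1 hy
    unfold n1
    have hsubp : ({x, y} : Finset V) ⊆ Z.filter (fun x => f x = true) := by
      intro z hz
      simp only [Finset.mem_insert, Finset.mem_singleton] at hz
      rcases hz with rfl | rfl
      · simp [hxZ, hfx]
      · simp [hyZ, hfy]
    have hle := Finset.sum_le_sum_of_subset_of_nonneg (f := fun x => ∑ z ∈ S \ Z, H.m x z) hsubp
      (fun i _ _ => Finset.sum_nonneg fun z _ => ok.m_nn i z)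
    rw [Finset.sum_pair (Ne.symm hyx)] at hle
    linarith
  have hn1one : ∀ f : V → Bool, ∀ x ∈ bd H S Z, f x = true →
      ∑ q ∈ S \ Z, H.m x q ≤ n1 H Z (S \ Z) f := by
    intro f x hx hfx
    obtain ⟨hxZ, hx1⟩ := (hbdm x).1 hx
    unfold n1
    exact Finset.single_le_sum (f := fun x => ∑ z ∈ S \ Z, H.m x z)
      (fun i _ => Finset.sum_nonneg fun z _ => ok.m_nn i z) (by simp [hxZ, hfx])
  have hsat : ∀ f p, ColBy H Z f p → ∀ x ∈ bd H S Z, H.c (f x) x ≤ load H Z f p x := by
    intro f p hf x hx
    obtain ⟨q, hq, hm⟩ := hbdq x hx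
    exact (hA' f p hf).1 x ((hbdm x).1 hx).1 q hq hm
  -- (2)
  have hcol2 : ∀ x ∈ bd H S Z, (∃ f p, ColBy H Z f p ∧ f x = true ∧
      ∀ y ∈ bd H S Z, y ≠ x → f y = false) ∧ ∑ q ∈ S \ Z, H.m x q = 1 := by
    intro x hx
    obtain ⟨hxZ, hx1⟩ := (hbdm x).1 hx
    obtain ⟨f, p, hf, hl⟩ := hs V H S Z (fun i v => if i = false ∧ v = x then 1 else 0) mc hsub h.nS
      (by intro i v; split_ifs <;> norm_num)
      (by
        intro C hC hCne
        have hCS : C ≠ S := by
          rintro rfl
          exact h.nS (Finset.Subset.antisymm hsub hC)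
        have h3 := (b5b C (hC.trans hsub) hCne hCS).2
        have h4 : cost (fun (i : Bool) (v : V) => if i = false ∧ v = x then (1 : ℤ) else 0) C ≤ 3 := by
          unfold cost
          have : ∀ z ∈ C, (5 * (if true = false ∧ z = x then (1 : ℤ) else 0) +
              3 * (if false = false ∧ z = x then (1 : ℤ) else 0)) = if z = x then 3 else 0 := by
            intro z _
            by_cases hz : z = x <;> simp [hz]
          rw [Finset.sum_congr rfl this, Finset.sum_ite_eq']
          split_ifs <;> norm_num
        linarith)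
    have hfx : f x = true := by
      by_contra hne
      have hff : f x = false := by simpa using hne
      have h1 := (hl x hxZ).1
      simp only [hff, true_and, if_true] at h1
      have h2 := hsat f p hf x hx
      rw [hff] at h2
      omega
    have hn := (hA' f p hf).2
    have h1 := hn1one f x hx hfx
    refine ⟨⟨f, p, hf, hfx, ?_⟩, by omega⟩
    intro y hy hyx
    by_contra hne
    have hfy : f y = true := by simpa using hne
    have h2 := hn1le f x hx y hy hfx hfy hyx
    omega
  have hsum1 : ∀ x ∈ bd H S Z, ∑ q ∈ S \ Z, H.m x q = 1 := fun x hx => (hcol2 x hx).2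
  have hmm : mm H Z (S \ Z) = (bd H S Z).card := by
    have e1 : mm H Z (S \ Z) = ∑ x ∈ bd H S Z, ∑ q ∈ S \ Z, H.m x q := by
      unfold mm bd
      rw [Finset.sum_filter]
      apply Finset.sum_congr rfl
      intro x _
      split_ifs with hx
      · rfl
      · have h0 : 0 ≤ ∑ q ∈ S \ Z, H.m x q := Finset.sum_nonneg fun z _ => ok.m_nn x z
        omega
    rw [e1, Finset.sum_congr rfl hsum1]
    simp
  have hUS : Z ∪ (S \ Z) = S := Finset.union_sdiff_of_subset hsub
  have hQ : hp H (S \ Z) = 5 * (bd H S Z).card - 5 := by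
    have h1 := b2 Z (S \ Z) Finset.disjoint_sdiff
    rw [hUS, hrr _ (Finset.Subset.refl _), hmm, hS2, h.h3] at h1
    linarith
  have hQsub : S \ Z ⊆ S := Finset.sdiff_subset
  have hQne : (S \ Z).Nonempty := by
    rw [Finset.sdiff_nonempty]
    intro hSZ
    exact h.nS (Finset.Subset.antisymm hsub hSZ)
  have hQS : S \ Z ≠ S := by
    intro he
    obtain ⟨z, hz⟩ := h.ne
    have : z ∈ S \ Z := by rw [he]; exact hsub hz
    exact (Finset.mem_sdiff.1 this).2 hz
  have he2 : 2 ≤ (bd H S Z).card := by
    have h1 := (b5b (S \ Z) hQsub hQne hQS).2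
    rw [hQ] at h1
    omega
  -- (3)
  have h3C : ∀ C, C ⊆ S \ Z → C.Nonempty → C ≠ S \ Z → 5 * mm H Z C ≤ hp H C := by
    intro C hC hCne hCQ
    have hdC := hdj C hC
    have h1 := b2 Z C hdC
    rw [hrr C hC, h.h3] at h1
    have hZC : Z ∪ C ⊆ S := Finset.union_subset hsub (hC.trans hQsub)
    have hZCS : Z ∪ C ≠ S := by
      intro he
      apply hCQ
      apply Finset.Subset.antisymm hC
      intro q hq
      have hq1 := Finset.mem_sdiff.1 hq
      have : q ∈ Z ∪ C := by rw [he]; exact hq1.1
      rcases Finset.mem_union.1 this with h2 | h2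
      · exact absurd h2 hq1.2
      · exact h2
    have h2 := (b5b (Z ∪ C) hZC (h.ne.mono Finset.subset_union_left) hZCS).2
    linarith
  refine ⟨hS2, hsum1, hmm, hQ, he2, fun x hx => (hcol2 x hx).1, ?_, h3C⟩
  -- (4)
  intro f0 p0 hf0
  refine ⟨?_, hsat f0 p0 hf0⟩
  by_cases hex : ∃ x ∈ bd H S Z, f0 x = true
  · obtain ⟨x, hx, hfx⟩ := hex
    refine ⟨x, hx, hfx, ?_⟩
    intro y hy hfy
    by_contra hyx
    have h1 := hn1le f0 x hx y hy hfx hfy hyx
    have h2 := (hA' f0 p0 hf0).2
    omega
  exfalso
  have hall : ∀ x ∈ bd H S Z, f0 x = false := by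
    intro x hx
    by_contra hne
    exact hex ⟨x, hx, by simpa using hne⟩
  have hbne : (bd H S Z).Nonempty := by
    rw [← Finset.card_pos]; omega
  obtain ⟨x0, hx0⟩ := hbne
  obtain ⟨z0, hz0, hm0⟩ := hbdq x0 hx0
  have hx0Z := ((hbdm x0).1 hx0).1
  -- the units at `x0`
  have hx0u : ∀ z ∈ S \ Z, H.m x0 z = if z = z0 then 1 else 0 := by
    intro z hz
    have h1 := hsum1 x0 hx0
    have h5 : ∑ q ∈ (S \ Z).erase z0, H.m x0 q + H.m x0 z0 = 1 := by
      rw [Finset.sum_erase_add _ _ hz0]; exact h1
    have h6 : 0 ≤ ∑ q ∈ (S \ Z).erase z0, H.m x0 q := Finset.sum_nonneg fun z _ => ok.m_nn x0 z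
    split_ifs with hzz
    · subst hzz; omega
    · have h7 := Finset.single_le_sum (f := fun q => H.m x0 q) (fun i _ => ok.m_nn x0 i)
        (Finset.mem_erase.2 ⟨hzz, hz⟩)
      have h8 := ok.m_nn x0 z
      try dsimp only at h7
      omega
  have hsumz : ∀ z, 0 ≤ ∑ x ∈ Z, H.m x z := fun z => Finset.sum_nonneg fun x _ => ok.m_nn x z
  have hsumz0 : 1 ≤ ∑ x ∈ Z, H.m x z0 := by
    refine le_trans hm0 ?_
    exact Finset.single_le_sum (f := fun x => H.m x z0) (fun i _ => ok.m_nn i z0) hx0Z
  have hmmC : ∀ C : Finset V, ∑ z ∈ C, ∑ x ∈ Z, H.m x z = mm H Z C := by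
    intro C
    unfold mm
    rw [Finset.sum_comm]
  obtain ⟨g, q, hgq, hlq⟩ := hs V H S (S \ Z)
    (fun i z => if i = true then (∑ x ∈ Z, H.m x z) - (if z = z0 then 1 else 0) else 0) mc hQsub hQS
    (by
      intro i z
      try dsimp only
      by_cases hi : i = true
      · rw [if_pos hi]
        by_cases hz : z = z0
        · rw [if_pos hz, hz]; omega
        · rw [if_neg hz]; have := hsumz z; omega
      · rw [if_neg hi])
    (by
      intro C hC hCne
      have hcost : cost (fun (i : Bool) (z : V) =>
          if i = true then (∑ x ∈ Z, H.m x z) - (if z = z0 then (1 : ℤ) else 0) else 0) C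
          = 5 * (mm H Z C - (if z0 ∈ C then 1 else 0)) := by
        unfold cost
        have : ∀ z ∈ C, (5 * (if true = true then (∑ x ∈ Z, H.m x z) - (if z = z0 then (1 : ℤ) else 0)
            else 0) + 3 * (if false = true then (∑ x ∈ Z, H.m x z) - (if z = z0 then (1 : ℤ) else 0)
            else 0)) = 5 * (∑ x ∈ Z, H.m x z) - 5 * (if z = z0 then (1 : ℤ) else 0) := by
          intro z _
          rw [if_pos rfl, if_neg (show ¬ (false = true) by decide)]
          ring
        rw [Finset.sum_congr rfl this, Finset.sum_sub_distrib, ← Finset.mul_sum, ← Finset.mul_sum,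
          hmmC, Finset.sum_ite_eq']
        ring
      rw [hcost]
      by_cases hCQ : C = S \ Z
      · subst hCQ
        rw [if_pos hz0, hmm, hQ]
        linarith
      · have h1 := h3C C hC hCne hCQ
        split_ifs <;> linarith)
  have hclose : ∀ F P', ¬ ColBy H S F P' := fun F P' hF => mc.ncol ⟨F, P', hF⟩
  cases hg0 : g z0 with
  | true =>
    obtain ⟨⟨f, p, hf, hfx0, hfy⟩, -⟩ := hcol2 x0 hx0
    obtain ⟨F, P', hF, -⟩ := hg V H S Z f g p q (fun _ _ => 0)
      (fun z x => if g z = true ∧ x ≠ x0 then H.m x z else 0) ok hsub hf hgq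
      (fun _ _ => le_refl _)
      (by intro z x; split_ifs; exacts [ok.m_nn x z, le_refl _])
      (by
        intro x hx z hz _
        rw [hr0 x hx z hz]
        refine ⟨le_refl _, ?_⟩
        split_ifs; exacts [ok.m_nn x z, le_refl _])
      (by
        intro x hx z hz hne
        have hnn := ok.m_nn x z
        by_cases hm : 1 ≤ H.m x z
        · have hxb := hbdi x hx z hz hm
          by_cases hxx : x = x0
          · subst hxx
            have hgz : g z = false := by
              rw [hfx0] at hne
              cases hgz : g z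
              · rfl
              · exact absurd hgz.symm hne
            have h1 := hx0u z hz
            by_cases hzz : z = z0
            · subst hzz; rw [hg0] at hgz; exact absurd hgz (by simp)
            · rw [if_neg hzz] at h1; omega
          · have hfx := hfy x hxb hxx
            have hgz : g z = true := by
              rw [hfx] at hne
              cases hgz : g z
              · exact absurd hgz.symm hne
              · rfl
            rw [if_pos ⟨hgz, hxx⟩]
            omega
        · have h0 : H.m x z = 0 := by omega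
          rw [h0]
          simp)
      (by
        intro x hx
        simp only [Finset.sum_const_zero, add_zero]
        exact hf.cap x hx)
      (by
        intro z hz
        have h1 := (hlq z hz).1
        try dsimp only at h1 ⊢
        cases hgz : g z with
        | true =>
          rw [hgz, if_pos rfl] at h1
          have h2 : ∑ x ∈ Z, (if true = true ∧ x ≠ x0 then H.m x z else 0) + H.m x0 z
              = ∑ x ∈ Z, H.m x z := by
            rw [← Finset.sum_erase_add _ _ hx0Z, ← Finset.sum_erase_add (s := Z) (f := fun x => H.m x z) hx0Z]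
            have h3 : ∑ x ∈ Z.erase x0, (if true = true ∧ x ≠ x0 then H.m x z else 0)
                = ∑ x ∈ Z.erase x0, H.m x z := by
              apply Finset.sum_congr rfl
              intro x hx
              have hxx := (Finset.mem_erase.1 hx).1
              simp [hxx]
            rw [h3]
            simp
          rw [hx0u z hz] at h2
          omega
        | false =>
          rw [hgz] at h1
          simp at h1 ⊢
          exact h1)
    exact hclose F P' hF
  | false =>
    obtain ⟨F, P', hF, -⟩ := hg V H S Z f0 g p0 q (fun _ _ => 0)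
      (fun z x => if g z = true then H.m x z else 0) ok hsub hf0 hgq
      (fun _ _ => le_refl _)
      (by intro z x; split_ifs; exacts [ok.m_nn x z, le_refl _])
      (by
        intro x hx z hz _
        rw [hr0 x hx z hz]
        refine ⟨le_refl _, ?_⟩
        split_ifs; exacts [ok.m_nn x z, le_refl _])
      (by
        intro x hx z hz hne
        have hnn := ok.m_nn x z
        by_cases hm : 1 ≤ H.m x z
        · have hxb := hbdi x hx z hz hm
          have hfx := hall x hxb
          have hgz : g z = true := by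
            rw [hfx] at hne
            cases hgz : g z
            · exact absurd hgz.symm hne
            · rfl
          rw [if_pos hgz]
          omega
        · have h0 : H.m x z = 0 := by omega
          rw [h0]
          simp)
      (by
        intro x hx
        simp only [Finset.sum_const_zero, add_zero]
        exact hf0.cap x hx)
      (by
        intro z hz
        have h1 := (hlq z hz).1
        try dsimp only at h1 ⊢
        cases hgz : g z with
        | true =>
          rw [hgz, if_pos rfl] at h1
          have hzz : z ≠ z0 := by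
            rintro rfl
            rw [hg0] at hgz
            exact absurd hgz (by simp)
          rw [if_neg hzz] at h1
          simp only [if_true]
          omega
        | false =>
          rw [hgz] at h1
          simp at h1 ⊢
          exact h1)
    exact hclose F P' hF

end Pool.Agent.N796.DF
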